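import Pool.Agent.K4H46.CI.Main

/-!
# Converse of the `Ω`-stability theorem: recurrence on periodic smooth circles

`V n = ℝⁿ`, `DiffM n N r = Diff^r(N)`, `strongTop n N r` is its `C^r` topology
(`Pool/Agent/H718R2/G0.lean`); `OmegaStable`, `Omega`, `IsHomPerInf`: `Pool/Agent/TH80/OMS/Defs.lean`;
`Per`: periodic points (`SymDefs.lean`); `FiniteNoCycle`: `CycDefs.lean`; `Rec`: recurrent points
(`Pool/Agent/Y504/CO/Stm5.lean`); `IsHyperbolicPer`: hyperbolic periodic points
(`Pool/Agent/Y504/CO/Rob.lean`); `OnPerCircle`: `Pool/Agent/K4H46/CI/Def.lean`.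
-/

set_option autoImplicit false

open scoped Manifold ContDiff Topology

universe u

namespace Pool.Agent.Results.MP_814647_an.CircleRecurrence

open Pool.Agent.H718R2.G Pool.Agent.TH80.OMS Pool.Agent.Y504.CO Pool.Agent.K4H46.CI

/-- Let `N` be a closed manifold, `1 ≤ r ≤ ∞`, and let `F ∈ Diff^r(N)` be `Ω`-stable.  For all `G` in a
neighbourhood of `F` (for instance `G = F`), every recurrent point of `G` which lies on a periodic
smooth circle is periodic. -/
theorem result (n : ℕ) (N : Type u) [TopologicalSpace N] [T2Space N] [CompactSpace N]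
    [ChartedSpace (V n) N] [IsManifold (𝓡 n) ∞ N] (r : ℕ∞) (hr : 1 ≤ r) (F : DiffM n N r)
    (hF : OmegaStable n N r F) :
    ∃ U : Set (DiffM n N r), IsOpen[strongTop n N r] U ∧ F ∈ U ∧ ∀ G ∈ U, ∀ y ∈ Rec G,
      OnPerCircle n G y → y ∈ Per G := by
  obtain ⟨U₁, hU₁, hF₁, h₁⟩ := hyp_near hr hF
  exact ⟨U₁, hU₁, hF₁, fun G hG y hy hc => circle_per hr hU₁ hG h₁ hc hy⟩

end Pool.Agent.Results.MP_814647_an.CircleRecurrence
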