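import Pool.Agent.K4H47.IR.Main

/-!
# Isolated returns of `Ω`-stable diffeomorphisms

`V n = ℝⁿ`, `DiffM n N r = Diff^r(N)`, `strongTop n N r` is its `C^r` topology
(`Pool/Agent/H718R2/G0.lean`); `OmegaStable`: `Pool/Agent/TH80/OMS/Defs.lean`; `GoodChart n N χ z`:
`χ` is a chart of the smooth structure of `N` with `χ z = 0` whose target contains the closed unit ball
(`Pool/Agent/W564/SC/Defs.lean`); `IsHypMap`: no complex eigenvalue has modulus one
(`Pool/Agent/K4H47/RH/Def.lean`); `RobHyp D ε`: `(1 + B) D` is hyperbolic for all linear `B` of norm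
at most `ε` (`Pool/Agent/K4H47/IR/Lin.lean`).
-/

set_option autoImplicit false

open scoped Manifold ContDiff Topology

universe u

namespace Pool.Agent.Results.MP_814647_an.IsolatedReturns

open Pool.Agent.H718R2.G Pool.Agent.TH80.OMS Pool.Agent.W564.SC Pool.Agent.K4H47.RH
  Pool.Agent.K4H47.IR

/-- `x` is in the quarter ball of the chart, `G^j x` is `δ`-close to `x` in the chart, and those of
the points `G x, ..., G^(j-1) x` which are in the chart are at distance at least `ρ` from `x`. -/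
structure IsRet {n : ℕ} {N : Type u} [TopologicalSpace N] (G : N → N)
    (χ : OpenPartialHomeomorph N (V n)) (x : N) (j : ℕ) (ρ δ : ℝ) : Prop where
  mem : x ∈ χ.source ∧ ‖χ x‖ < 1 / 4
  pos : 1 ≤ j
  iso : ∀ i, 1 ≤ i → i < j → G^[i] x ∈ χ.source → ρ ≤ ‖χ (G^[i] x) - χ x‖
  ret : G^[j] x ∈ χ.source ∧ ‖χ (G^[j] x) - χ x‖ ≤ δ

/-- The derivative of `G^j` at `x` in the chart. -/
noncomputable def retD {n : ℕ} {N : Type u} [TopologicalSpace N] (G : N → N)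
    (χ : OpenPartialHomeomorph N (V n)) (x : N) (j : ℕ) : V n →L[ℝ] V n :=
  fderiv ℝ (fun v => χ (G^[j] (χ.symm v))) (χ x)

/-- Quantitative hyperbolicity of a linear map: `(1 + B) D` is hyperbolic for `‖B‖ ≤ ε`, all
complex eigenvalues `lam` satisfy `|log |lam|| ≥ ε / 2`, and unit eigenvectors for real eigenvalues
of modulus `< 1` and `> 1` have distance at least `ε / 2`. -/
structure QHyp {n : ℕ} (D : V n →L[ℝ] V n) (ε : ℝ) : Prop where
  rob : RobHyp D ε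
  eig : ∀ lam : ℂ, ((LinearMap.charpoly (D : V n →ₗ[ℝ] V n)).map (algebraMap ℝ ℂ)).IsRoot lam →
    ε / 2 ≤ |Real.log ‖lam‖|
  angle : ∀ (v w : V n) (a b : ℝ), D v = a • v → D w = b • w → |a| < 1 → 1 < |b| → ‖v‖ = 1 →
    ‖w‖ = 1 → ε / 2 ≤ ‖v - w‖

/-- Let `N` be a closed manifold, `1 ≤ r ≤ ∞`, let `F ∈ Diff^r(N)` be `Ω`-stable, and let `χ` be a
chart of `N` whose target contains the closed unit ball. There are a `C^r` neighbourhood `U` of
`F`, a finite `k ≤ r` and `c > 0` such that for all `G ∈ U`, all points `x` in the quarter ball of the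
chart, all `j ≥ 1` and `0 < ρ ≤ 1`: if `|G^j x - x| ≤ c ρ^k` and `|G^i x - x| ≥ ρ` for `0 < i < j`, then

1. `G` has a point `y` with `G^j y = y` and `|y - x| < ρ`;
2. the derivative of `G^j` at `x` is hyperbolic, with constant `c ρ^(k-1)`. -/
theorem result (n : ℕ) (N : Type u) [TopologicalSpace N] [T2Space N] [CompactSpace N]
    [ChartedSpace (V n) N] [IsManifold (𝓡 n) ∞ N] (r : ℕ∞) (hr : 1 ≤ r) (F : DiffM n N r)
    (hF : OmegaStable n N r F) (χ : OpenPartialHomeomorph N (V n)) (z : N)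
    (hχ : GoodChart n N χ z) :
    ∃ U : Set (DiffM n N r), IsOpen[strongTop n N r] U ∧ F ∈ U ∧ ∃ k : ℕ, 1 ≤ k ∧
      (k : ℕ∞) ≤ r ∧ ∃ c : ℝ, 0 < c ∧ ∀ G ∈ U, ∀ (x : N) (j : ℕ) (ρ : ℝ), 0 < ρ → ρ ≤ 1 →
        IsRet G χ x j ρ (c * ρ ^ k) →
        (∃ y ∈ χ.source, G^[j] y = y ∧ ‖χ y - χ x‖ < ρ) ∧
        QHyp (retD G χ x j) (c * ρ ^ (k - 1)) := by
  obtain ⟨U, hU, hFU, k, hk1, hkr, c, hc, hc1, h⟩ := Pool.Agent.K4H47.IR.main hr F hF χ z hχ
  refine ⟨U, hU, hFU, k, hk1, hkr, c, hc, fun G hG x j ρ hρ0 hρ1 hx => ?_⟩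
  obtain ⟨h1, h2⟩ := h G hG x j ρ hρ0 hρ1 ⟨hx.mem, hx.pos, hx.iso, hx.ret⟩
  have hp : 0 < c * ρ ^ (k - 1) := by positivity
  have hp1 : c * ρ ^ (k - 1) ≤ 1 := by
    have h3 : ρ ^ (k - 1) ≤ 1 := pow_le_one₀ hρ0.le hρ1
    have h4 : 0 < ρ ^ (k - 1) := by positivity
    nlinarith
  exact ⟨h1, h2, fun lam hl => rob_eig hp1 (ret_inj hr G hχ.mem hx.mem.1 j hx.ret.1) h2 hl,
    fun v w a b hv hw ha hb hv1 hw1 => rob_angle hp hp1 h2 hv hw ha hb hv1 hw1⟩

end Pool.Agent.Results.MP_814647_an.IsolatedReturns
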