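import Pool.Agent.K4H47.RH.Dm

/-!
# Quantitative hyperbolicity of the periodic orbits of `Ω`-stable diffeomorphisms

`V n = ℝⁿ`, `DiffM n N r = Diff^r(N)`, `strongTop n N r` is its `C^r` topology
(`Pool/Agent/H718R2/G0.lean`); `OmegaStable`: `Pool/Agent/TH80/OMS/Defs.lean`; `Per`: periodic
points (`SymDefs.lean`); `IsHyperbolicPer`: hyperbolic periodic points
(`Pool/Agent/Y504/CO/Rob.lean`); `DN`: derivative of a map `N → N`, `DE`: derivative of a map
`N → ℝ^q`, `IsImm`: smooth immersions, `Radii`, `orb`, `pprod`, `IsHypMap`, `IsMinPer`: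
`Pool/Agent/K4H47/RH/Def.lean`; `IsStar`: `Pool/Agent/K4H47/RH/Sb.lean`.

Lengths of tangent vectors and distances are measured with an immersion `e : N → ℝ^q`. The points of
a periodic orbit of least period `m` are `x i = G^i(p)`, `1 ≤ i ≤ m`, and the numbers
`0 < ρ (x i) ≤ 1` are at most the distances of `x i` to the other points of the orbit (`Radii`).
-/

set_option autoImplicit false

open scoped Manifold ContDiff Topology

universe u

namespace Pool.Agent.Results.MP_814647_an.RobustHyperbolicity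

open Pool.Agent.H718R2.G Pool.Agent.TH80.OMS Pool.Agent.K4H47.RH

section

variable (n : ℕ) {N : Type u} [TopologicalSpace N] [ChartedSpace (V n) N] {q : ℕ}

/-- If one composes the derivative `DG` at each point `x` of the orbit with any linear map
`1 + B x` of norm `‖B x‖ ≤ c ρ(x)^(k-1)`, the derivative along the orbit remains hyperbolic. -/
def Pert (e : N → V q) (G : N → N) (k : ℕ) (c : ℝ) : Prop :=
  ∀ (p : N) (m : ℕ), IsMinPer G p m → ∀ ρ : N → ℝ, Radii e (orb G p) ρ →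
    ∀ B : N → V n →L[ℝ] V n,
    (∀ x ∈ orb G p, ∀ v, ‖DE n e x (B x v)‖ ≤ c * ρ x ^ (k - 1) * ‖DE n e x v‖) →
    IsHypMap (pprod (fun i => (ContinuousLinearMap.id ℝ (V n) + B (G^[i + 1] p)).comp
      (DN n G (G^[i] p))) m)

/-- Every complex eigenvalue `lam` of the derivative of `G^m` at `p` satisfies
`|log |lam|| ≥ c ∑ ρ(x i)^(k-1)`. -/
def Mult (e : N → V q) (G : N → N) (k : ℕ) (c : ℝ) : Prop :=
  ∀ (p : N) (m : ℕ), IsMinPer G p m → ∀ ρ : N → ℝ, Radii e (orb G p) ρ →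
    ∀ lam : ℂ, ((LinearMap.charpoly (DN n (G^[m]) p : V n →ₗ[ℝ] V n)).map
      (algebraMap ℝ ℂ)).IsRoot lam →
    c * ∑ i ∈ Finset.range m, ρ (G^[i] p) ^ (k - 1) ≤ |Real.log ‖lam‖|

/-- `v` and `w` are eigenvectors of the derivative of `G^m` at `p` with real eigenvalues `a`, `b`,
`|a| < 1 < |b|` (on a surface: stable and unstable vectors). -/
def SU (G : N → N) (p : N) (m : ℕ) (v w : V n) : Prop :=
  ∃ a b : ℝ, DN n (G^[m]) p v = a • v ∧ DN n (G^[m]) p w = b • w ∧ |a| < 1 ∧ 1 < |b|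

/-- Such eigenvectors of length one satisfy `|v - w| ≥ c ρ(p)^(k-1)`. -/
def Angle (e : N → V q) (G : N → N) (k : ℕ) (c : ℝ) : Prop :=
  ∀ (p : N) (m : ℕ), IsMinPer G p m → ∀ ρ : N → ℝ, Radii e (orb G p) ρ →
    ∀ v w : V n, SU n G p m v w → ‖DE n e p v‖ = 1 → ‖DE n e p w‖ = 1 →
    c * ρ p ^ (k - 1) ≤ ‖DE n e p v - DE n e p w‖

/-- The length of `DG^i(p) v`. -/
noncomputable def len (e : N → V q) (G : N → N) (p : N) (v : V n) (i : ℕ) : ℝ :=
  ‖DE n e (G^[i] p) (DN n (G^[i]) p v)‖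

/-- Domination: for such eigenvectors `v`, `w` (of any length), with `v i = DG^i(p) v`,
`w i = DG^i(p) w`, and all `l ≤ m`,
`c (∑_{0 < i ≤ l} ρ(x i)^(2k-2) |w i| / |v i|) (∑_{l < j ≤ m} ρ(x j)^(2k-2) |v j| / |w j|) ≤ 1`. -/
def Dom (e : N → V q) (G : N → N) (k : ℕ) (c : ℝ) : Prop :=
  ∀ (p : N) (m : ℕ), IsMinPer G p m → ∀ ρ : N → ℝ, Radii e (orb G p) ρ →
    ∀ v w : V n, v ≠ 0 → w ≠ 0 → SU n G p m v w → ∀ l ≤ m,
    c * ((∑ i ∈ Finset.Ioc 0 l, ρ (G^[i] p) ^ (2 * (k - 1)) *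
        (len n e G p w i / len n e G p v i)) *
      (∑ i ∈ Finset.Ioc l m, ρ (G^[i] p) ^ (2 * (k - 1)) *
        (len n e G p v i / len n e G p w i))) ≤ 1

/-- Quantitative hyperbolicity of the periodic orbits of `G`, with constants `k` and `c`. -/
structure QuantHyp (e : N → V q) (G : N → N) (k : ℕ) (c : ℝ) : Prop where
  pert : Pert n e G k c
  mult : Mult n e G k c
  angle : Angle n e G k c
  dom : Dom n e G k c

end

/-- Let `N` be a closed manifold, `1 ≤ r ≤ ∞`, and let `F ∈ Diff^r(N)` be `Ω`-stable or, more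
generally, such that all periodic points of all diffeomorphisms in a `C^r` neighbourhood of `F` are
hyperbolic. Then there are a neighbourhood `U` of `F` and a finite `k ≤ r` such that for every
smooth immersion (for instance embedding) `e : N → ℝ^q` there is a `c > 0` such that the periodic
orbits of all `G ∈ U` are hyperbolic with the constants `k`, `c`. -/
theorem result (n : ℕ) (N : Type u) [TopologicalSpace N] [T2Space N] [CompactSpace N]
    [ChartedSpace (V n) N] [IsManifold (𝓡 n) ∞ N] (r : ℕ∞) (hr : 1 ≤ r) (F : DiffM n N r)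
    (hF : OmegaStable n N r F ∨ IsStar n N r F) :
    ∃ U : Set (DiffM n N r), IsOpen[strongTop n N r] U ∧ F ∈ U ∧ ∃ k : ℕ, 1 ≤ k ∧
      (k : ℕ∞) ≤ r ∧ ∀ (q : ℕ) (e : N → V q), IsImm n e → ∃ c : ℝ, 0 < c ∧
        ∀ G ∈ U, QuantHyp n e G k c := by
  have hS : IsStar n N r F := hF.elim (star_of_stable hr) id
  obtain ⟨U, hU, hFU, k, hk1, hkr, h⟩ := pert_hyp hr hS
  refine ⟨U, hU, hFU, k, hk1, hkr, fun q e he => ?_⟩
  obtain ⟨c, hc, h⟩ := h q e he
  set c₁ : ℝ := min c 1 / 2 with hc₁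
  have hc₁0 : 0 < c₁ := by
    have : 0 < min c 1 := lt_min hc one_pos
    positivity
  set c₂ : ℝ := (c * c₁ / 2) ^ 2 / 2 with hc₂
  have hc₂0 : 0 < c₂ := by positivity
  refine ⟨min c (min c₁ c₂), lt_min hc (lt_min hc₁0 hc₂0), fun G hG => ⟨?_, ?_, ?_, ?_⟩⟩
  · intro p m hm ρ hρ B hB
    refine h G hG p m hm.pos hm.per ρ hρ B fun x hx v => (hB x hx v).trans ?_
    refine mul_le_mul_of_nonneg_right ?_ (norm_nonneg _)
    exact mul_le_mul_of_nonneg_right (min_le_left _ _) (pow_nonneg (hρ.pos x hx).le _)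
  · intro p m hm ρ hρ lam hl
    refine le_trans ?_ (multipliers hr hc hm.per hρ (h G hG p m hm.pos hm.per ρ hρ) hl)
    refine mul_le_mul_of_nonneg_right ((min_le_right _ _).trans (min_le_left _ _)) ?_
    exact Finset.sum_nonneg fun i _ => pow_nonneg (hρ.pos _ ⟨i, rfl⟩).le _
  · intro p m hm ρ hρ v w hvw hv1 hw1
    obtain ⟨a, b, hv, hw, ha, hb⟩ := hvw
    refine le_trans ?_ (Pool.Agent.K4H47.RH.angle hr hc hm hρ
      (h G hG p m hm.pos hm.per ρ hρ) hv hw ha hb hv1 hw1)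
    exact mul_le_mul_of_nonneg_right ((min_le_right _ _).trans (min_le_left _ _))
      (pow_nonneg (hρ.pos p ⟨0, rfl⟩).le _)
  · intro p m hm ρ hρ v w hv0 hw0 hvw l hl
    obtain ⟨a, b, hv, hw, ha, hb⟩ := hvw
    have hp : ∀ i, PertHyp n e G (G^[i] p) m k c ρ := fun i =>
      h G hG _ m hm.pos (hm.shift G.injective i).per ρ (hρ.mono (orb_shift p i))
    refine le_trans ?_ (domination hr he hc hm hρ hp hv0 hw0 hv hw ha hb hl)
    refine mul_le_mul_of_nonneg_right ((min_le_right _ _).trans (min_le_right _ _)) ?_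
    refine mul_nonneg (Finset.sum_nonneg fun i _ => ?_) (Finset.sum_nonneg fun i _ => ?_)
    · exact mul_nonneg (pow_nonneg (hρ.pos _ ⟨i, rfl⟩).le _)
        (div_nonneg (norm_nonneg _) (norm_nonneg _))
    · exact mul_nonneg (pow_nonneg (hρ.pos _ ⟨i, rfl⟩).le _)
        (div_nonneg (norm_nonneg _) (norm_nonneg _))

end Pool.Agent.Results.MP_814647_an.RobustHyperbolicity
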