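import Pool.Agent.K4H46.CI.Main

/-!
# Converse of the `Ω`-stability theorem: recurrence on periodic smooth circles

`V n = ℝⁿ`, `DiffM n N r = Diff^r(N)`, `strongTop n N r` is its `C^r` topology
(`Pool/Agent/H718R2/G0.lean`); `OmegaStable`, `Omega`, `IsHomPerInf`: `Pool/Agent/TH80/OMS/Defs.lean`;
`Per`: periodic points (`SymDefs.lean`); `FiniteNoCycle`: `CycDefs.lean`; `Rec`: recurrent points
(`Pool/Agent/Y504/CO/Stm5.lean`); `IsHyperbolicPer`: hyperbolic periodic points
(`Pool/Agent/Y504/CO/Rob.lean`); `OnPerCircle`: `Pool/Agent/K4H46/CI/Def.lean`.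

Uses the theorem of helper504 and the team of project CO on diffeomorphisms with countable
nonperiodic recurrence, and the theorem of helper80 on homogeneous periodic submanifolds.
-/

set_option autoImplicit false

open scoped Manifold ContDiff Topology

universe u

namespace Pool.Agent.Results.MP_814647_an.TameRecurrence

open Pool.Agent.H718R2.G Pool.Agent.TH80.OMS Pool.Agent.Y504.CO Pool.Agent.K4H46.CI

/-- All but countably many recurrent points of `G` are periodic, or lie on periodic smooth circles, or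
lie on homogeneous periodic submanifolds of positive dimension (for instance on smooth tori on which
an iterate of `G` is a translation). -/
def TameRec (n : ℕ) {N : Type u} [TopologicalSpace N] [ChartedSpace (V n) N] (G : N → N) : Prop :=
  (Rec G \ (Per G ∪ {y | OnPerCircle n G y} ∪ {y | IsHomPerInf n N G y})).Countable

/-- Let `N` be a closed manifold, `1 ≤ r ≤ ∞`, and let `F ∈ Diff^r(N)` be `Ω`-stable.  If arbitrarily
close to `F` there are diffeomorphisms `G` with `TameRec G` (for instance `G = F`), then `Ω(F)` is finite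
and consists of hyperbolic periodic points (Axiom A), and `F` has no cycles. -/
theorem result (n : ℕ) (N : Type u) [TopologicalSpace N] [T2Space N] [CompactSpace N]
    [ChartedSpace (V n) N] [IsManifold (𝓡 n) ∞ N] (r : ℕ∞) (hr : 1 ≤ r) (F : DiffM n N r)
    (hF : OmegaStable n N r F) :
    (∀ U : Set (DiffM n N r), IsOpen[strongTop n N r] U → F ∈ U → ∃ G ∈ U, TameRec n G) →
      FiniteNoCycle F ∧ ∀ p ∈ Omega F, IsHyperbolicPer n F p := by
  obtain ⟨U₁, hU₁, hF₁, h₁⟩ := hyp_near hr hF
  have hcirc : ∀ G ∈ U₁, ∀ y ∈ Rec G, OnPerCircle n G y → y ∈ Per G :=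
    fun G hG y hy hc => circle_per hr hU₁ hG h₁ hc hy
  intro happ
  obtain ⟨U₂, hU₂, hF₂, h₂⟩ := no_homPer hr hF
  obtain ⟨U, hU, hFU, hconj⟩ := id hF
  have hopen : IsOpen[strongTop n N r] ((U₁ ∩ U₂) ∩ U) := by
    letI := strongTop n N r
    exact (IsOpen.inter hU₁ hU₂).inter hU
  obtain ⟨G, ⟨⟨hG₁, hG₂⟩, hGU⟩, hG⟩ := happ ((U₁ ∩ U₂) ∩ U) hopen ⟨⟨hF₁, hF₂⟩, hFU⟩
  have hRG : Rec G ⊆ Per G := by
    refine Gen.rec_per G (hG.mono ?_)
    rintro y ⟨hy, hp⟩
    refine ⟨hy, ?_⟩
    rintro ((h | h) | h)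
    · exact hp h
    · exact hp (hcirc G hG₁ y hy h)
    · exact h₂ G hG₂ y h
  have hGF : OmegaConj G F := Pool.Agent.Y318.MN.omegaConj_symm F.continuous (hconj G hGU)
  have hRF : Rec F ⊆ Per F := rec_conj G.continuous F.continuous hGF hRG
  exact Gen.stable hr hF (by rw [Set.diff_eq_empty.2 hRF]; exact Set.countable_empty)

end Pool.Agent.Results.MP_814647_an.TameRecurrence
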